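import Pool.Agent.UFS.St

/-!
# UFS: invariant `F_σ` classes are Borel

Theorem `thm_BRK (h : UN.St_KWM) : St_BRK`.
-/

set_option autoImplicit false
set_option linter.unusedVariables false

namespace UFS

open Set UN Pool.Agent.Helper5.DU Pool.Agent.Helper6.Str Pool.Agent.Helper79.VC
  Pool.Agent.Helper97.LO Pool.Agent.Helper97.VC

variable {G : Sg}

/-- a set which depends on finitely many measurable facts is measurable -/
private theorem BRK_meas {α ι : Type*} [MeasurableSpace α] [Countable ι] (P : α → ι → Prop)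
    (hP : ∀ i, MeasurableSet {c | P c i}) (D : Finset ι) (W : (ι → Prop) → Prop) :
    MeasurableSet {c | ∃ w : ι → Prop, W w ∧ ∀ a ∈ D, (P c a ↔ w a)} := by
  classical
  have key : {c | ∃ w : ι → Prop, W w ∧ ∀ a ∈ D, (P c a ↔ w a)} =
      ⋃ E : Finset ι, ({_c | ∃ w : ι → Prop, W w ∧ ∀ a ∈ D, (a ∈ E ↔ w a)} ∩
        ⋂ a : ι, {c | a ∈ D → (P c a ↔ a ∈ E)}) := by
    ext c
    simp only [mem_ofPred_eq, mem_iUnion, mem_inter_iff, mem_iInter]
    constructor
    · rintro ⟨w, hw, h⟩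
      refine ⟨D.filter w, ⟨w, hw, fun a ha => ?_⟩, fun a ha => ?_⟩
      · simp [ha]
      · rw [h a ha]; simp [ha]
    · rintro ⟨E, ⟨w, hw, h⟩, h'⟩
      exact ⟨w, hw, fun a ha => (h' a ha).trans (h a ha)⟩
  rw [key]
  refine MeasurableSet.iUnion fun E => (MeasurableSet.const _).inter
    (MeasurableSet.iInter fun a => ?_)
  by_cases ha : a ∈ D
  · by_cases hE : a ∈ E
    · simp only [ha, hE, iff_true, true_implies]
      exact hP a
    · simp only [ha, hE, iff_false, true_implies]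
      exact (hP a).compl
  · simp only [ha, false_implies]
    exact MeasurableSet.const True

/-- a fact in a relational structure -/
private def BRK_P (B : (LW G).Structure ℕ) : Fc G → Prop
  | .inl r => B.RelMap (At.rel r.1 fun i => ([], i) : At G (Fin (G.ar r.1))) r.2
  | .inr r => B.RelMap (At.eq ([r.1], 0) ([], 1) : At G (Fin 2)) ![r.2.1, r.2.2]

private theorem BRK_P_WS (S : Sys G ℕ) (r : Fc G) : BRK_P (WS S) r ↔ Hd S r := by
  rcases r with ⟨R, a⟩ | ⟨f, x, y⟩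
  · exact Iff.rfl
  · exact Iff.rfl

theorem BRK_cl (h : UN.St_KWM) (h1 : Countable G.Fn) (h2 : Countable G.Rl)
    {A : Set (Sys G ℕ)} (hA : ClS A) : MeasurableSet {c : Code (LW G) | toStr c ∈ KW A} := by
  have hcR : ∀ n, Countable ((LW G).Relations n) := by
    intro n
    let g : ((List G.Fn × Fin n) × (List G.Fn × Fin n)) ⊕
        ((R : G.Rl) × (Fin (G.ar R) → List G.Fn × Fin n)) → At G (Fin n) :=
      Sum.elim (fun p => .eq p.1 p.2) fun p => .rel p.1 p.2
    have h5 : Countable (At G (Fin n)) := by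
      refine Function.Surjective.countable (f := g) ?_
      rintro (⟨s, t⟩ | ⟨R, t⟩)
      · exact ⟨.inl (s, t), rfl⟩
      · exact ⟨.inr ⟨R, t⟩, rfl⟩
    exact h5
  let U : ∀ M : Type, Sys G M → Prop := fun M _ => Nonempty M
  have hU : IsU U := ⟨fun M S h => h, fun M S h _ => h⟩
  have hm := (h G U h1 h2 hU).1
  have key : {c : Code (LW G) | toStr c ∈ KW A} = {c : Code (LW G) | toStr c ∈ KU U} ∩
      ⋂ Φ : Finset (Fc G), {c : Code (LW G) | ∃ w : Fc G → Prop,
        (∃ S' ∈ A, ∀ r, w r ↔ Hd S' r) ∧ ∀ r ∈ Φ, (BRK_P (toStr c) r ↔ w r)} := by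
    ext c
    simp only [mem_inter_iff, mem_iInter, mem_ofPred_eq]
    constructor
    · rintro ⟨S, hS, hc⟩
      refine ⟨⟨S, ⟨0⟩, hc⟩, fun Φ => ⟨Hd S, ⟨S, hS, fun r => Iff.rfl⟩, fun r _ => ?_⟩⟩
      rw [hc]
      exact BRK_P_WS S r
    · rintro ⟨⟨S, -, hc⟩, hΦ⟩
      refine ⟨S, hA S fun Φ => ?_, hc⟩
      obtain ⟨w, ⟨S', hS', h5⟩, h6⟩ := hΦ Φ
      refine ⟨S', hS', fun r hr => ?_⟩
      rw [← h5 r, ← h6 r hr, hc]
      exact BRK_P_WS S r
  rw [key]
  refine hm.inter (MeasurableSet.iInter fun Φ => ?_)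
  refine BRK_meas (fun (c : Code (LW G)) (r : Fc G) => BRK_P (toStr c) r) (fun r => ?_) Φ _
  rcases r with ⟨R, a⟩ | ⟨f, x, y⟩
  · exact measurableSet_relMap _ _
  · exact measurableSet_relMap _ _

theorem thm_BRK (h : UN.St_KWM) : St_BRK := by
  intro G K A h1 h2 hK
  have key : {c : Code (LW G) | toStr c ∈ KW K} = ⋃ i, {c : Code (LW G) | toStr c ∈ KW (A i)} := by
    ext c
    simp only [mem_iUnion, mem_ofPred_eq]
    constructor
    · rintro ⟨S, hS, hc⟩
      rw [hK.un] at hS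
      obtain ⟨i, hi⟩ := mem_iUnion.1 hS
      exact ⟨i, S, hi, hc⟩
    · rintro ⟨i, S, hS, hc⟩
      refine ⟨S, ?_, hc⟩
      rw [hK.un]
      exact mem_iUnion.2 ⟨i, hS⟩
  rw [key]
  exact MeasurableSet.iUnion fun i => BRK_cl h h1 h2 (hK.cl i)

end UFS
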