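import Pool.Agent.UFS.St

/-!
# UFS, module BXT: levels of expansions
-/

set_option autoImplicit false
set_option linter.unusedVariables false

namespace UFS

open Set UN Pool.Agent.Helper5.DU Pool.Agent.Helper6.Str Pool.Agent.Helper79.VC

/-- **module BXT** -/
theorem thm_BXT (hT : St_TXA) : St_BXT := by
  intro G k M N S S' c c' X X' γ p
  constructor
  · induction γ using WellFoundedLT.induction generalizing p with
    | _ γ ih =>
      intro h
      rw [BFR.def] at h ⊢
      refine ⟨?_, fun β hβ => ⟨fun x hx => ?_, fun y hy => ?_⟩⟩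
      · rw [atEq_iff]
        intro V u hu a
        obtain ⟨b, hb⟩ := (hT G k V).1 a
        rw [hb, hb]
        have h1 := atEq_iff.1 h.1 (V ⊕ Fin k) (Sum.elim u fun j => (c j, c' j)) (by
          rintro (v | j)
          · exact Or.inl (hu v)
          · exact Or.inr ⟨j, rfl⟩)
        have e1 : (fun v => (Sum.elim u (fun j => (c j, c' j)) v).1) =
            Sum.elim (fun v => (u v).1) c := by
          funext v
          rcases v with v | j <;> rfl
        have e2 : (fun v => (Sum.elim u (fun j => (c j, c' j)) v).2) =
            Sum.elim (fun v => (u v).2) c' := by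
          funext v
          rcases v with v | j <;> rfl
        rw [e1, e2] at h1
        exact h1 b
      · obtain ⟨y, hy, h1⟩ := (h.2 β hβ).1 x hx
        refine ⟨y, hy, ih β hβ _ ?_⟩
        rw [insert_union]
        exact h1
      · obtain ⟨x, hx, h1⟩ := (h.2 β hβ).2 y hy
        refine ⟨x, hx, ih β hβ _ ?_⟩
        rw [insert_union]
        exact h1
  · induction γ using WellFoundedLT.induction generalizing p with
    | _ γ ih =>
      intro h
      rw [BFR.def] at h ⊢
      refine ⟨?_, fun β hβ => ⟨fun x hx => ?_, fun y hy => ?_⟩⟩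
      · rw [atEq_iff]
        intro V u hu b
        obtain ⟨a, ha⟩ := (hT G k V).2 b
        rw [← ha M S c, ← ha N S' c']
        exact atEq_iff.1 h.1 V u hu a
      · obtain ⟨y, hy, h1⟩ := (h.2 β hβ).1 x hx
        exact ⟨y, hy, ih β hβ _ h1⟩
      · obtain ⟨x, hx, h1⟩ := (h.2 β hβ).2 y hy
        exact ⟨x, hx, ih β hβ _ h1⟩

end UFS
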