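import Pool.Agent.UFS.St

/-!
# UFS: structures which are equivalent to a member of `K` at the level `ω + ω`
-/

set_option autoImplicit false

namespace UFS

open Set UN Pool.Agent.Helper5.DU Pool.Agent.Helper6.Str Pool.Agent.Helper79.VC
  Pool.Agent.Helper97.LO Pool.Agent.Helper97.VC

theorem thm_CLG (h1 : St_BAF) (h2 : St_WSR) (h3 : St_TRF) : St_CLG := by
  intro G K A hFs M B S' hS' h
  have hpos : (0 : Ordinal.{0}) < Ordinal.omega0 + Ordinal.omega0 :=
    lt_of_lt_of_le Ordinal.omega0_pos le_self_add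
  obtain ⟨x, -, -⟩ := h.back hpos (mem_univ (0 : ℕ))
  have hM : Nonempty M := ⟨x⟩
  obtain ⟨S, rfl⟩ := h2 G M ℕ B S' hM (h.mono le_self_add)
  obtain ⟨i, k, c', hc'⟩ := h1 G K A hFs S' hS'
  have h4 : BFR (WS S) (WS S') univ univ (Ordinal.omega0 + ((k : ℕ) : Ordinal.{0})) ∅ := by
    refine h.mono ?_
    gcongr
    exact (Ordinal.natCast_lt_omega0 _).le
  obtain ⟨c, -, h5⟩ := BFR.back_many _ h4 c' fun _ => mem_univ _
  refine ⟨S, rfl, i, k, c, ?_⟩
  refine h3 G (A i) k M ℕ S S' c c' hM ?_ hc'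
  exact BFR.anti (fun a ha => Or.inr ha) h5

end UFS
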