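import Pool.Agent.UFS.St

/-!
# UFS, module CLK: `KW K` is closed under the equivalence of the level `ω + ω` (helper75)
-/

set_option autoImplicit false
set_option linter.unusedVariables false

namespace UFS

open Set UN Pool.Agent.Helper5.DU Pool.Agent.Helper6.Str Pool.Agent.Helper79.VC

theorem thm_CLK (h1 : St_UKK) (h2 : St_CLG) : St_CLK := by
  intro G K A hF B hB B' hBB
  obtain ⟨S', hS', rfl⟩ := hB
  obtain ⟨S, hS, i, k, c, hc⟩ := h2 G K A hF ℕ B' S' hS' (hBB.symm fun a ha => ha.elim)
  exact ⟨S, h1 G K A hF i k S c hc, hS⟩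

end UFS
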