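import Pool.Agent.UFS.St

/-!
# UFS [CNS]: the members of the classes `UK` are expansions
-/

set_option autoImplicit false
set_option linter.unusedVariables false

namespace UFS

open Set UN Pool.Agent.Helper5.DU Pool.Agent.Helper6.Str Pool.Agent.Helper79.VC
open scoped Topology

theorem thm_CNS : St_CNS := by
  intro G A k M T ⟨⟨x₀⟩, hU⟩
  have hconst : ∀ (j : Fin k) (x y : M), T.fn (Sum.inr j) x = T.fn (Sum.inr j) y := by
    intro j x y
    obtain ⟨S', -, v', h⟩ := hU 2 ![x, y]
      {At.eq ([Sum.inr j], (0 : Fin 2)) ([Sum.inr j], (1 : Fin 2))} (Set.finite_singleton _)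
    exact (h _ rfl).2 rfl
  refine ⟨⟨fun f => T.fn (Sum.inl f), T.rel⟩, fun j => T.fn (Sum.inr j) x₀, ?_, ?_⟩
  · apply Sys.ext
    · funext f x
      cases f with
      | inl f => rfl
      | inr j => exact hconst j x x₀
    · rfl
  · intro j j' hj
    obtain ⟨S', -, v', h⟩ := hU 1 ![x₀]
      {At.eq ([Sum.inr j], (0 : Fin 1)) ([Sum.inr j'], (0 : Fin 1))} (Set.finite_singleton _)
    have h1 : ((j : Fin k) : ℕ) = j' := (h _ rfl).1 hj
    exact Fin.ext h1

end UFS
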