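import Pool.Agent.UFS.St

/-!
# UFS: the dichotomy for invariant `F_σ` sets of systems (DSG)
-/

set_option autoImplicit false
set_option linter.unusedVariables false

namespace UFS

open Set Filter UN Pool.Agent.Helper5.DU Pool.Agent.Helper6.Str Pool.Agent.Helper79.VC
  Pool.Agent.Helper97.LO Pool.Agent.Helper97.VC

private lemma DSG_ctbl (G : Sg) (hF : Countable G.Fn) (hR : Countable G.Rl) (n : ℕ) :
    Countable (At G (Fin n)) := by
  let f : At G (Fin n) →
      ((List G.Fn × Fin n) × (List G.Fn × Fin n)) ⊕
        ((R : G.Rl) × (Fin (G.ar R) → List G.Fn × Fin n)) :=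
    fun a => match a with
      | .eq s t => Sum.inl (s, t)
      | .rel R t => Sum.inr ⟨R, t⟩
  have hf : Function.Injective f := by
    intro a b hab
    cases a with
    | eq s t =>
      cases b with
      | eq s' t' =>
        have h := Prod.mk.inj (Sum.inl.inj hab)
        rw [h.1, h.2]
      | rel R' t' => exact absurd hab (by simp [f])
    | rel R t =>
      cases b with
      | eq s' t' => exact absurd hab (by simp [f])
      | rel R' t' =>
        have h := Sum.inr.inj hab
        obtain ⟨h1, h2⟩ := Sigma.mk.inj h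
        subst h1
        rw [eq_of_heq h2]
  exact hf.countable

/-- the dichotomy for invariant `F_σ` sets of systems -/
theorem thm_DSG (h1 : UNE.St_ENI) (h2 : St_UKU) (h3 : St_CLG) (h4 : St_BRK) (h5 : St_CLK)
    (h6 : St_SCK) (h7 : St_NLK) : St_DSG := by
  intro G K A hF hR hFs
  have : ∀ n, Countable ((LW G).Relations n) := fun n => DSG_ctbl G hF hR n
  by_cases hP : PerfK (KW K)
  · exact Or.inr hP
  · refine Or.inl ?_
    by_contra hC
    have hK := h4 G K A hF hR hFs
    have hS := scat_of_not_perf hK hP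
    have hlt : Ordinal.omega0.{0} + Ordinal.omega0 < om1 := add_lt_om1 omega_lt_om1 omega_lt_om1
    obtain ⟨M, B, hlev, hNT⟩ := exists_model hK hS hlt (h5 G K A hFs) hC
    obtain ⟨B', ⟨S', hS', rfl⟩, hb⟩ := hlev _ hlt
    obtain ⟨S, rfl, i, k, c, hU⟩ := h3 G K A hFs M B S' hS' hb
    have hF' : Countable (Gk G k).Fn := by
      show Countable (G.Fn ⊕ Fin k)
      infer_instance
    exact h1 (Gk G k) (UK (A i) k) hF' hR (h2 G (A i) k) (h6 G K A hFs hS i k) M (ex S c) hU
      (h7 G k M S c hNT)

end UFS
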