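import Pool.Agent.UFS.St

/-!
# UFS [EXP]: finite injections extend to permutations
-/

set_option autoImplicit false

namespace UFS

theorem thm_EXP : St_EXP := by
  intro k
  induction k with
  | zero =>
    intro c _
    exact ⟨1, fun j => j.elim0⟩
  | succ k ih =>
    intro c hc
    obtain ⟨g, hg⟩ := ih (fun j => c j.castSucc) (hc.comp (Fin.castSucc_injective k))
    refine ⟨Equiv.swap (g k) (c (Fin.last k)) * g, fun j => ?_⟩
    induction j using Fin.lastCases with
    | last =>
      rw [Equiv.Perm.mul_apply, Fin.val_last, Equiv.swap_apply_left]
    | cast j =>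
      rw [Equiv.Perm.mul_apply, Fin.val_castSucc, hg j]
      apply Equiv.swap_apply_of_ne_of_ne
      · intro h
        have h1 : g j = g k := (hg j).trans h
        have h2 : (j : ℕ) = k := g.injective h1
        exact absurd h2 (ne_of_lt j.2)
      · intro h
        exact absurd (hc h) (Fin.castSucc_lt_last j).ne

end UFS
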