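import Pool.Agent.UFS.St
import Pool.Agent.UN.FNU

/-!
# UFS: the theorem for invariant `F_σ` sets of structures

Theorem `thm_FSU (h : St_DSG) : St_FSU`.
-/

set_option autoImplicit false
set_option linter.unusedVariables false

namespace UFS

open Set UN Pool.Agent.Helper5.DU Pool.Agent.Helper6.Str Pool.Agent.Helper79.VC
open scoped Topology

variable {L : FirstOrder.Language.{0, 0}}

set_option warn.classDefReducibility false in
/-- the structure on `ℕ` of a system with constant constants -/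
private def FSU_str (L : FirstOrder.Language.{0, 0}) (hL : ∀ n, IsEmpty (L.Functions (n + 2)))
    (S : Sys (sgL L) ℕ) : L.Structure ℕ where
  funMap := fun {n} => match n with
    | 0 => fun c _ => S.fn (Sum.inl c) 0
    | 1 => fun g v => S.fn (Sum.inr g) (v 0)
    | (k + 2) => fun g _ => ((hL k).false g).elim
  RelMap := fun {n} R v => S.rel ⟨n, R⟩ v

private theorem FSU_sy (hL : ∀ n, IsEmpty (L.Functions (n + 2))) (S : Sys (sgL L) ℕ)
    (hc : ∀ (c : L.Functions 0) (x y : ℕ), S.fn (Sum.inl c) x = S.fn (Sum.inl c) y) :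
    S = sy (FSU_str L hL S) := by
  apply Sys.ext
  · funext f x
    cases f with
    | inl c => exact hc c x 0
    | inr g => rfl
  · rfl

set_option warn.classDefReducibility false in
/-- the structure induced along a permutation -/
private def FSU_pm (B : L.Structure ℕ) (g : Equiv.Perm ℕ) : L.Structure ℕ where
  funMap := fun {n} F a => g.symm (B.funMap F (g ∘ a))
  RelMap := fun {n} R a => B.RelMap R (g ∘ a)

private theorem FSU_pm_sy (B : L.Structure ℕ) (g : Equiv.Perm ℕ) :
    pm (sy B) g = sy (FSU_pm B g) := by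
  apply Sys.ext
  · funext f x
    cases f with
    | inl c =>
      change g.symm (B.funMap c ![]) = g.symm (B.funMap c (g ∘ ![]))
      have h1 : (g ∘ (![] : Fin 0 → ℕ)) = ![] := Subsingleton.elim _ _
      rw [h1]
    | inr F =>
      change g.symm (B.funMap F ![g x]) = g.symm (B.funMap F (g ∘ ![x]))
      have h1 : (g ∘ (![x] : Fin 1 → ℕ)) = ![g x] := by
        funext i
        fin_cases i
        rfl
      rw [h1]
  · rfl

private theorem FSU_pm_equiv (B : L.Structure ℕ) (g : Equiv.Perm ℕ) :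
    Nonempty (@FirstOrder.Language.Equiv L ℕ ℕ B (FSU_pm B g)) := by
  refine ⟨@FirstOrder.Language.Equiv.mk L ℕ ℕ B (FSU_pm B g) g.symm ?_ ?_⟩
  · intro n F x
    change g.symm (B.funMap F x) = g.symm (B.funMap F (g ∘ (g.symm ∘ x)))
    have h1 : g ∘ (g.symm ∘ x) = x := funext fun i => g.apply_symm_apply _
    rw [h1]
  · intro n R x
    change B.RelMap R (g ∘ (g.symm ∘ x)) ↔ B.RelMap R x
    have h1 : g ∘ (g.symm ∘ x) = x := funext fun i => g.apply_symm_apply _
    rw [h1]

/-- open sets are determined by finitely many facts -/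
private theorem FSU_open (hL : ∀ n, IsEmpty (L.Functions (n + 2))) {O : Set (L.Structure ℕ)}
    (hO : IsOpen[lTop L] O) : ∀ B ∈ O, ∃ Φ : Finset (Fc (sgL L)), ∀ B' : L.Structure ℕ,
      (∀ r ∈ Φ, (Hd (sy B') r ↔ Hd (sy B) r)) → B' ∈ O := by
  classical
  have hO' : TopologicalSpace.GenerateOpen {A : Set (L.Structure ℕ) |
    (∃ (n : ℕ) (R : L.Relations n) (a : Fin n → ℕ),
      A = {S : L.Structure ℕ | S.RelMap R a} ∨ A = {S : L.Structure ℕ | ¬ S.RelMap R a}) ∨
    ∃ (n : ℕ) (F : L.Functions n) (a : Fin n → ℕ) (b : ℕ),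
      A = {S : L.Structure ℕ | S.funMap F a = b}} O := hO
  clear hO
  induction hO' with
  | basic s hs =>
    intro B hB
    rcases hs with ⟨n, R, a, hs⟩ | ⟨n, F, a, b, hs⟩
    · refine ⟨{Sum.inl ⟨⟨n, R⟩, a⟩}, fun B' h => ?_⟩
      have h1 : (B'.RelMap R a ↔ B.RelMap R a) := h _ (Finset.mem_singleton_self _)
      rcases hs with rfl | rfl
      · exact h1.2 hB
      · exact fun h2 => hB (h1.1 h2)
    · subst hs
      match n, F with
      | 0, F =>
        refine ⟨{Sum.inr (Sum.inl F, 0, b)}, fun B' h => ?_⟩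
        have h1 : (B'.funMap F ![] = b ↔ B.funMap F ![] = b) :=
          h _ (Finset.mem_singleton_self _)
        have ha : a = ![] := Subsingleton.elim _ _
        subst ha
        exact h1.2 hB
      | 1, F =>
        refine ⟨{Sum.inr (Sum.inr F, a 0, b)}, fun B' h => ?_⟩
        have h1 : (B'.funMap F ![a 0] = b ↔ B.funMap F ![a 0] = b) :=
          h _ (Finset.mem_singleton_self _)
        have ha : a = ![a 0] := by
          funext i
          fin_cases i
          rfl
        rw [← ha] at h1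
        exact h1.2 hB
      | n + 2, F => exact (hL n).elim F
  | univ => exact fun B _ => ⟨∅, fun _ _ => mem_univ _⟩
  | inter s t _ _ ihs iht =>
    intro B hB
    obtain ⟨Φ, h1⟩ := ihs B hB.1
    obtain ⟨Ψ, h2⟩ := iht B hB.2
    exact ⟨Φ ∪ Ψ, fun B' h => ⟨h1 B' fun r hr => h r (Finset.mem_union_left _ hr),
      h2 B' fun r hr => h r (Finset.mem_union_right _ hr)⟩⟩
  | sUnion s _ ih =>
    rintro B ⟨t, ht, hB⟩
    obtain ⟨Φ, h1⟩ := ih t ht B hB
    exact ⟨Φ, fun B' h => ⟨t, ht, h1 B' h⟩⟩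

private theorem FSU_fs (hL : ∀ n, IsEmpty (L.Functions (n + 2))) {K : Set (L.Structure ℕ)}
    {A : ℕ → Set (L.Structure ℕ)}
    (hinv : ∀ S S' : L.Structure ℕ, Nonempty (@FirstOrder.Language.Equiv L ℕ ℕ S S') →
      S ∈ K → S' ∈ K)
    (hcl : ∀ i, IsClosed[lTop L] (A i)) (hun : K = ⋃ i, A i) :
    Fs {S | ∃ B ∈ K, S = sy B} (fun i => {S | ∃ B ∈ A i, S = sy B}) := by
  classical
  refine ⟨?_, ?_, ?_⟩
  · rintro S ⟨B, hB, rfl⟩ g
    exact ⟨FSU_pm B g, hinv _ _ (FSU_pm_equiv B g) hB, FSU_pm_sy B g⟩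
  · ext S
    constructor
    · rintro ⟨B, hB, rfl⟩
      rw [hun] at hB
      obtain ⟨i, hi⟩ := mem_iUnion.1 hB
      exact mem_iUnion.2 ⟨i, B, hi, rfl⟩
    · intro h
      obtain ⟨i, B, hB, rfl⟩ := mem_iUnion.1 h
      refine ⟨B, ?_, rfl⟩
      rw [hun]
      exact mem_iUnion.2 ⟨i, hB⟩
  · intro i S hS
    have hc : ∀ (c : L.Functions 0) (x y : ℕ), S.fn (Sum.inl c) x = S.fn (Sum.inl c) y := by
      intro c x y
      let r1 : Fc (sgL L) := Sum.inr (Sum.inl c, x, S.fn (Sum.inl c) x)
      let r2 : Fc (sgL L) := Sum.inr (Sum.inl c, y, S.fn (Sum.inl c) x)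
      obtain ⟨S', ⟨B, -, rfl⟩, h1⟩ := hS ({r1, r2} : Finset (Fc (sgL L)))
      have e1 : Hd S r1 := show S.fn (Sum.inl c) x = S.fn (Sum.inl c) x from rfl
      have h2 : Hd (sy B) r1 := (h1 r1 (Finset.mem_insert_self _ _)).2 e1
      have h4 : Hd (sy B) r2 := h2
      have h3 : Hd S r2 :=
        (h1 r2 (Finset.mem_insert_of_mem (Finset.mem_singleton_self _))).1 h4
      have h5 : S.fn (Sum.inl c) y = S.fn (Sum.inl c) x := h3
      exact h5.symm
    refine ⟨FSU_str L hL S, ?_, FSU_sy hL S hc⟩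
    by_contra hB
    have hop : IsOpen[lTop L] (A i)ᶜ := @IsClosed.isOpen_compl (L.Structure ℕ) (lTop L) _ (hcl i)
    obtain ⟨Φ, hΦ⟩ := FSU_open hL hop _ hB
    obtain ⟨S', ⟨B, hBA, rfl⟩, h1⟩ := hS Φ
    refine hΦ B (fun r hr => ?_) hBA
    rw [← FSU_sy hL S hc]
    exact h1 r hr

theorem thm_FSU (h : St_DSG) : St_FSU := by
  classical
  intro L hL hE K A hinv hAcl hun
  have cF : Countable (sgL L).Fn := by
    have hinj : Function.Injective (fun f : (sgL L).Fn =>
        (Sum.elim (fun c => Sum.inl ⟨0, c⟩) (fun g => Sum.inl ⟨1, g⟩) f : L.Symbols)) := by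
      rintro (c | g) (c' | g') h
      · simp only [Sum.elim_inl, Sum.inl.injEq, Sigma.mk.injEq, heq_eq_eq, true_and] at h
        rw [h]
      · simp at h
      · simp at h
      · simp only [Sum.elim_inr, Sum.inl.injEq, Sigma.mk.injEq, heq_eq_eq, true_and] at h
        rw [h]
    exact hinj.countable
  have cR : Countable (sgL L).Rl := by
    have hinj : Function.Injective (fun R : (sgL L).Rl => (Sum.inr R : L.Symbols)) :=
      Sum.inr_injective
    exact hinj.countable
  rcases h (sgL L) _ _ cF cR (FSU_fs hE hinv hAcl hun) with ⟨g, hg⟩ | ⟨f, hfK, hiso, hcl⟩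
  · obtain ⟨g', hg'⟩ : ∃ g' : ℕ → L.Structure ℕ, ∀ n,
        (∃ A : L.Structure ℕ, Iso (WS (sy A)) (g n)) → Iso (WS (sy (g' n))) (g n) := by
      refine ⟨fun n => if h : ∃ A : L.Structure ℕ, Iso (WS (sy A)) (g n) then h.choose
        else ⟨fun _ _ => 0, fun _ _ => False⟩, fun n h => ?_⟩
      simp only [dif_pos h]
      exact h.choose_spec
    refine Or.inl ⟨g', ?_⟩
    intro S hS
    obtain ⟨n, hn⟩ := hg (WS (sy S)) ⟨sy S, ⟨S, hS, rfl⟩, rfl⟩
    exact ⟨n, (FNU_equiv hE S _).1 (hn.trans (hg' n ⟨S, hn⟩).symm)⟩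
  · choose S hSU hfS using hfK
    choose A' hAK hSA using hSU
    have hfA : ∀ x, f x = WS (sy (A' x)) := fun x => by rw [hfS x, hSA x]
    refine Or.inr ⟨A', hAK, ?_, ?_, ?_⟩
    · intro x y h
      refine hiso x y ?_
      rw [hfA x, hfA y]
      exact (FNU_equiv hE _ _).2 h
    · intro n R a
      have h1 := hcl n (At.rel (G := sgL L) ⟨n, R⟩ fun k => ([], k) : At (sgL L) (Fin n)) a
      have h2 : {x : ℕ → Bool | (f x).RelMap
          (At.rel (G := sgL L) ⟨n, R⟩ fun k => ([], k) : At (sgL L) (Fin n)) a} =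
          {x : ℕ → Bool | @FirstOrder.Language.Structure.RelMap L ℕ (A' x) n R a} := by
        ext x
        change (f x).RelMap _ a ↔ _
        rw [hfA x]
        exact Iff.rfl
      rw [← h2]
      exact h1
    · intro n F a b
      match n, F with
      | 0, F =>
        have h1 := hcl 2 (At.eq (G := sgL L) ([Sum.inl F], 0) ([], 1) : At (sgL L) (Fin 2)) ![b, b]
        have ha : a = ![] := Subsingleton.elim _ _
        have h2 : {x : ℕ → Bool | (f x).RelMap
            (At.eq (G := sgL L) ([Sum.inl F], 0) ([], 1) : At (sgL L) (Fin 2)) ![b, b]} =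
            {x : ℕ → Bool | @FirstOrder.Language.Structure.funMap L ℕ (A' x) 0 F a = b} := by
          ext x
          change (f x).RelMap _ ![b, b] ↔ _
          rw [hfA x, ha]
          exact Iff.rfl
        rw [← h2]
        exact h1
      | 1, F =>
        have h1 := hcl 2 (At.eq (G := sgL L) ([Sum.inr F], 0) ([], 1) : At (sgL L) (Fin 2))
          ![a 0, b]
        have ha : a = ![a 0] := by
          funext i
          fin_cases i
          rfl
        have h2 : {x : ℕ → Bool | (f x).RelMap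
            (At.eq (G := sgL L) ([Sum.inr F], 0) ([], 1) : At (sgL L) (Fin 2)) ![a 0, b]} =
            {x : ℕ → Bool | @FirstOrder.Language.Structure.funMap L ℕ (A' x) 1 F a = b} := by
          ext x
          change (f x).RelMap _ ![a 0, b] ↔ _
          rw [hfA x]
          change ((A' x).funMap F ![a 0] = b) ↔ (A' x).funMap F a = b
          rw [← ha]
        rw [← h2]
        exact h1
      | n + 2, F => exact (hE n).elim F

end UFS
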