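import Pool.Agent.UFS.St

/-!
# UFS [NLK]: expansions of large structures are large (helper36)
-/

set_option autoImplicit false

namespace UFS

open Set UN Pool.Agent.Helper5.DU Pool.Agent.Helper6.Str Pool.Agent.Helper79.VC

theorem thm_NLK (h1 : St_BXT) : St_NLK := by
  intro G k M S c hS hE
  obtain ⟨A, hA, h⟩ := hE
  refine hS ⟨A, hA, fun F hF x => ?_⟩
  obtain ⟨d, hd, h2⟩ := h F hF x
  exact ⟨d, hd, fun γ hγ => (h1 G k M M S S c c univ univ γ _).2 (h2 γ hγ)⟩

end UFS
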