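import Pool.Agent.UFS.St

/-!
# UFS: members of the classes `UK` on `ℕ`

Theorem `thm_PRM (h : St_EXP) : St_PRM`.
-/

set_option autoImplicit false
set_option linter.unusedVariables false

namespace UFS

open Set UN

variable {G : Sg}

/-- the numbers in a fact are smaller than this number -/
def PRM_b : Fc G → ℕ
  | .inl r => (Finset.univ.sup r.2) + 1
  | .inr r => max r.2.1 r.2.2 + 1

/-- the number `x` as an element of `Fin N` -/
def PRM_q {N : ℕ} (hN : 0 < N) (x : ℕ) : Fin N := ⟨min x (N - 1), by omega⟩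

theorem PRM_q_val {N : ℕ} (hN : 0 < N) {x : ℕ} (hx : x < N) : ((PRM_q hN x : Fin N) : ℕ) = x := by
  show min x (N - 1) = x
  omega

/-- the atom of a fact -/
def PRM_at (k : ℕ) {N : ℕ} (hN : 0 < N) : Fc G → At (Gk G k) (Fin N)
  | .inl r => .rel (G := Gk G k) r.1 fun i => ([], PRM_q hN (r.2 i))
  | .inr r => .eq ([Sum.inl r.1], PRM_q hN r.2.1) ([], PRM_q hN r.2.2)

theorem thm_PRM (h : St_EXP) : St_PRM := by
  classical
  intro G A k S c hA hU g hg
  refine hA _ fun Φ => ?_
  let N : ℕ := max (max (Φ.sup PRM_b) k) 1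
  have hN : 0 < N := lt_of_lt_of_le Nat.one_pos (le_max_right _ _)
  have hkN : k ≤ N := (le_max_right _ _).trans (le_max_left _ _)
  have hΦ : ∀ r ∈ Φ, PRM_b r ≤ N := fun r hr =>
    (Finset.le_sup (f := PRM_b) hr).trans ((le_max_left _ _).trans (le_max_left _ _))
  let v : Fin N → ℕ := fun m => g m
  let D : Set (At (Gk G k) (Fin N)) := (PRM_at k hN '' (Φ : Set (Fc G))) ∪
    (range fun m : Fin N × Fin N => (At.eq ([], m.1) ([], m.2) : At (Gk G k) (Fin N))) ∪
    range fun j : Fin k => (At.eq ([Sum.inr j], PRM_q hN j) ([], PRM_q hN j) :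
      At (Gk G k) (Fin N))
  have hD : D.Finite := ((Φ.finite_toSet.image _).union (finite_range _)).union (finite_range _)
  obtain ⟨S', hS', v', hv'⟩ := hU.2 N v D hD
  have hinj : Function.Injective v' := by
    intro m m' hmm
    have h1 := hv' (At.eq ([], m) ([], m')) (Or.inl (Or.inr ⟨(m, m'), rfl⟩))
    have h2 : v m = v m' := h1.2 hmm
    exact Fin.ext (g.injective h2)
  have hvj : ∀ j : Fin k, v' (PRM_q hN j) = j := by
    intro j
    have h1 := hv' (At.eq ([Sum.inr j], PRM_q hN j) ([], PRM_q hN j)) (Or.inr ⟨j, rfl⟩)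
    have h2 : c j = v (PRM_q hN j) := by
      show c j = g ((PRM_q hN j : Fin N) : ℕ)
      rw [PRM_q_val hN (lt_of_lt_of_le j.2 hkN)]
      exact (hg j).symm
    have h3 : (j : ℕ) = v' (PRM_q hN j) := h1.1 h2
    exact h3.symm
  obtain ⟨p, hp⟩ := h N v' hinj
  have hpx : ∀ x, x < N → p x = v' (PRM_q hN x) := by
    intro x hx
    rw [← hp, PRM_q_val hN hx]
  have hgx : ∀ x, x < N → g x = v (PRM_q hN x) := by
    intro x hx
    show g x = g ((PRM_q hN x : Fin N) : ℕ)
    rw [PRM_q_val hN hx]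
  have hfix : ∀ j < k, p j = j := by
    intro j hj
    rw [hpx j (lt_of_lt_of_le hj hkN)]
    exact hvj ⟨j, hj⟩
  refine ⟨pm S' p, hS' p hfix, ?_⟩
  intro r hr
  have hb := hΦ r hr
  have h1 := hv' (PRM_at k hN r) (Or.inl (Or.inl ⟨r, hr, rfl⟩))
  rcases r with ⟨R, a⟩ | ⟨f, x, y⟩
  · have ha : ∀ i, a i < N := by
      intro i
      have h2 : a i ≤ Finset.univ.sup a := Finset.le_sup (f := a) (Finset.mem_univ i)
      have h3 : Finset.univ.sup a + 1 ≤ N := hb
      omega
    show S'.rel R (fun i => p (a i)) ↔ S.rel R (fun i => g (a i))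
    have h4 : (fun i => p (a i)) = fun i => v' (PRM_q hN (a i)) := funext fun i => hpx _ (ha i)
    have h5 : (fun i => g (a i)) = fun i => v (PRM_q hN (a i)) := funext fun i => hgx _ (ha i)
    rw [h4, h5]
    exact h1.symm
  · have hb' : max x y + 1 ≤ N := hb
    have hx : x < N := by
      have := le_max_left x y
      omega
    have hy : y < N := by
      have := le_max_right x y
      omega
    show p.symm (S'.fn f (p x)) = y ↔ g.symm (S.fn f (g x)) = y
    rw [Equiv.symm_apply_eq, Equiv.symm_apply_eq, hpx x hx, hpx y hy, hgx x hx, hgx y hy]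
    exact h1.symm

end UFS
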