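import Pool.Agent.UFS.St

/-!
# UFS / SCK: the classes `UK` are scattered
-/

set_option autoImplicit false
set_option linter.unusedVariables false

namespace UFS

open Set UN Pool.Agent.Helper5.DU Pool.Agent.Helper6.Str Pool.Agent.Helper79.VC
open scoped Topology

private theorem SCK_om : Ordinal.omega0.{0} < om1 := Ordinal.omega0_lt_omega_one

/-- [SCK] -/
theorem thm_SCK (h1 : St_CNS) (h2 : St_UKK) (h3 : St_TRF) (h4 : St_BXT) : St_SCK := by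
  intro G K A hF hK i k γ hγ n
  have hγ' : max γ Ordinal.omega0.{0} < om1 := max_lt hγ SCK_om
  obtain ⟨ρ, hρ⟩ := hK (max γ Ordinal.omega0.{0}) hγ' (n + k)
  have hch : ∀ m, ∃ S : Sys G ℕ, (ρ m).1 ∈ KW K → S ∈ K ∧ (ρ m).1 = WS S := by
    intro m
    by_cases h : (ρ m).1 ∈ KW K
    · obtain ⟨S, hS, he⟩ := h
      exact ⟨S, fun _ => ⟨hS, he⟩⟩
    · exact ⟨⟨fun _ x => x, fun _ _ => False⟩, fun h' => absurd h' h⟩
  choose S hS using hch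
  refine ⟨fun m => (WS (ex (S m) (fun j => (ρ m).2 (Fin.natAdd n j))),
    fun i => (ρ m).2 (Fin.castAdd k i)), ?_⟩
  rintro B ⟨T, hT, rfl⟩ v
  obtain ⟨S0, c, rfl, hc⟩ := h1 G (A i) k ℕ T hT
  have hS0 : S0 ∈ K := h2 G K A hF i k S0 c hT
  obtain ⟨m, hm1, hm2⟩ := hρ (WS S0) ⟨S0, hS0, rfl⟩ (Fin.append v c)
  obtain ⟨hSm, he⟩ := hS m hm1
  rw [he] at hm2
  have hc1 : ∀ j : Fin k, (c j, (ρ m).2 (Fin.natAdd n j)) ∈ pr (Fin.append v c) (ρ m).2 := by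
    intro j
    refine ⟨Fin.natAdd n j, ?_⟩
    simp
  have hv1 : ∀ j : Fin n, (v j, (ρ m).2 (Fin.castAdd k j)) ∈ pr (Fin.append v c) (ρ m).2 := by
    intro j
    refine ⟨Fin.castAdd k j, ?_⟩
    simp
  have h5 : UK (A i) k ℕ (ex (S m) (fun j => (ρ m).2 (Fin.natAdd n j))) := by
    refine h3 G (A i) k ℕ ℕ (S m) S0 _ c ⟨0⟩ ?_ hT
    refine (hm2.mono (le_max_right _ _)).symm ?_
    rintro _ ⟨j, rfl⟩
    exact hc1 j
  refine ⟨m, ⟨_, h5, rfl⟩, ?_⟩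
  refine (h4 G k ℕ ℕ S0 (S m) c _ univ univ γ _).1 ?_
  refine BFR.anti ?_ (hm2.mono (le_max_left _ _))
  rintro _ (⟨j, rfl⟩ | ⟨j, rfl⟩)
  · exact hv1 j
  · exact hc1 j

end UFS
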