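import Pool.Agent.UFS.St

/-!
# UFS [TRF]: the classes `UK` are closed under equivalence of the level `ω`
-/

set_option autoImplicit false
set_option linter.unusedVariables false

namespace UFS

open Set UN Pool.Agent.Helper5.DU Pool.Agent.Helper6.Str Pool.Agent.Helper79.VC
open scoped Topology

theorem thm_TRF (h1 : St_TXA) : St_TRF := by
  intro G A k M N S S' c c' hM hb hU
  refine ⟨hM, fun n v D hD => ?_⟩
  have hle : (0 : Ordinal.{0}) + n ≤ Ordinal.omega0 := by
    rw [zero_add]
    exact (Ordinal.natCast_lt_omega0 n).le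
  obtain ⟨v', -, hb'⟩ := BFR.forth_many (γ := 0) n (BFR.mono hle hb) v (fun i => mem_univ _)
  have hb'' : BW S S' univ univ 0 (prs c c' ∪ range fun i => (v i, v' i)) := hb'
  have hE : Eqv S (Sum.elim v c) S' (Sum.elim v' c') := by
    refine BW.eqv hb'' ?_
    rintro (i | j)
    · exact Or.inr ⟨i, rfl⟩
    · exact Or.inl (prs_mem c c' j)
  obtain ⟨S'', hS'', v'', hv''⟩ := hU.2 n v' D hD
  refine ⟨S'', hS'', v'', fun a ha => ?_⟩
  rw [← hv'' a ha]
  obtain ⟨b, hb⟩ := (h1 G k (Fin n)).1 a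
  rw [hb M S c v, hb N S' c' v']
  exact hE b

end UFS
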