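import Pool.Agent.UFS.St

/-!
# UFS, module TXA: translation of atoms with constants
-/

set_option autoImplicit false

namespace UFS

open Set UN

variable {G : Sg}

/-- a word with constants is a word, applied to a variable or to a constant -/
private theorem TXA_w (k : ℕ) (ι : Type) (l : List (G.Fn ⊕ Fin k)) (i : ι) :
    ∃ q : List G.Fn × (ι ⊕ Fin k), ∀ (M : Type) (S : Sys G M) (c : Fin k → M) (v : ι → M),
      (ex S c).w l (v i) = S.w q.1 (Sum.elim v c q.2) := by
  induction l with
  | nil => exact ⟨([], Sum.inl i), fun M S c v => rfl⟩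
  | cons f l ih =>
    rcases f with f | j
    · obtain ⟨q, hq⟩ := ih
      refine ⟨(f :: q.1, q.2), fun M S c v => ?_⟩
      show S.fn f ((ex S c).w l (v i)) = S.fn f (S.w q.1 (Sum.elim v c q.2))
      rw [hq M S c v]
    · exact ⟨([], Sum.inr j), fun M S c v => rfl⟩

private theorem TXA_inl (k : ℕ) (l : List G.Fn) (M : Type) (S : Sys G M) (c : Fin k → M) (x : M) :
    (ex S c).w (l.map Sum.inl) x = S.w l x := by
  induction l with
  | nil => rfl
  | cons f l ih =>
    show S.fn f ((ex S c).w (l.map Sum.inl) x) = S.fn f (S.w l x)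
    rw [ih]

/-- [TXA] -/
theorem thm_TXA : St_TXA := by
  intro G k ι
  constructor
  · intro a
    cases a with
    | eq s t =>
      obtain ⟨q, hq⟩ := TXA_w k ι s.1 s.2
      obtain ⟨q', hq'⟩ := TXA_w k ι t.1 t.2
      refine ⟨.eq q q', fun M S c v => ?_⟩
      show (ex S c).w s.1 (v s.2) = (ex S c).w t.1 (v t.2) ↔
        S.w q.1 (Sum.elim v c q.2) = S.w q'.1 (Sum.elim v c q'.2)
      rw [hq M S c v, hq' M S c v]
    | rel R t =>
      choose q hq using fun m => TXA_w (G := G) k ι (t m).1 (t m).2
      refine ⟨.rel R q, fun M S c v => ?_⟩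
      show (S.rel R fun m => (ex S c).w (t m).1 (v (t m).2)) ↔
        S.rel R fun m => S.w (q m).1 (Sum.elim v c (q m).2)
      have h : (fun m => (ex S c).w (t m).1 (v (t m).2)) =
          fun m => S.w (q m).1 (Sum.elim v c (q m).2) := funext fun m => hq m M S c v
      rw [h]
  · intro b
    cases b with
    | eq s t =>
      refine ⟨.eq (s.1.map Sum.inl, s.2) (t.1.map Sum.inl, t.2), fun M S c v => ?_⟩
      show (ex S c).w (s.1.map Sum.inl) (v s.2) = (ex S c).w (t.1.map Sum.inl) (v t.2) ↔
        S.w s.1 (v s.2) = S.w t.1 (v t.2)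
      rw [TXA_inl, TXA_inl]
    | rel R t =>
      refine ⟨.rel R fun m => ((t m).1.map Sum.inl, (t m).2), fun M S c v => ?_⟩
      show (S.rel R fun m => (ex S c).w ((t m).1.map Sum.inl) (v (t m).2)) ↔
        S.rel R fun m => S.w (t m).1 (v (t m).2)
      have h : (fun m => (ex S c).w ((t m).1.map Sum.inl) (v (t m).2)) =
          fun m => S.w (t m).1 (v (t m).2) := funext fun m => TXA_inl k _ M S c _
      rw [h]

end UFS
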