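import Pool.Agent.UFS.St

/-!
# UFS [UKK]: the reducts of the members of the classes `UK` on `ℕ` are in `K`
-/

set_option autoImplicit false
set_option linter.unusedVariables false

namespace UFS

open Set UN Pool.Agent.Helper5.DU Pool.Agent.Helper6.Str Pool.Agent.Helper79.VC
open scoped Topology

private theorem UKK_pm {G : Sg} (S : Sys G ℕ) (g : Equiv.Perm ℕ) : pm (pm S g) g.symm = S := by
  apply Sys.ext
  · funext f x
    show g (g.symm (S.fn f (g (g.symm x)))) = S.fn f x
    rw [Equiv.apply_symm_apply, Equiv.apply_symm_apply]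
  · funext R v
    show (S.rel R fun k => g (g.symm (v k))) = S.rel R v
    simp only [Equiv.apply_symm_apply]

theorem thm_UKK (h1 : St_EXP) (h2 : St_CNS) (h3 : St_PRM) : St_UKK := by
  intro G K A hF i k S c hU
  obtain ⟨S₁, c₁, he, hc₁⟩ := h2 G (A i) k ℕ (ex S c) hU
  have hcc : c = c₁ := by
    funext j
    have h4 := congrArg (fun T : Sys (Gk G k) ℕ => T.fn (Sum.inr j) 0) he
    exact h4
  subst hcc
  obtain ⟨g, hg⟩ := h1 k c hc₁
  have h4 : pm S g ∈ A i := h3 G (A i) k S c (hF.cl i) hU g hg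
  have h5 : pm S g ∈ K := by
    rw [hF.un]
    exact mem_iUnion.2 ⟨i, h4⟩
  have h6 := hF.inv _ h5 g.symm
  rwa [UKK_pm] at h6

end UFS
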