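import Pool.Agent.UFS.St

/-!
# UFS / UKU: the classes `UK` are universal
-/

set_option autoImplicit false
set_option linter.unusedVariables false

namespace UFS

open Set UN

theorem thm_UKU : St_UKU := by
  intro G A k
  refine ⟨fun M T h => h.1, fun M T hM h => ⟨hM, fun n v D hD => ?_⟩⟩
  obtain ⟨N, T', hT', v', hv'⟩ := h n v D hD
  obtain ⟨S', hS', v'', hv''⟩ := hT'.2 n v' D hD
  exact ⟨S', hS', v'', fun a ha => (hv' a ha).trans (hv'' a ha)⟩

end UFS
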