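import Pool.Agent.UFS.St

/-!
# UFS, module WSR: structures which are equivalent to a system at the level `ω` are systems
-/

set_option autoImplicit false
set_option linter.unusedVariables false

namespace UFS

open Set UN Pool.Agent.Helper5.DU Pool.Agent.Helper6.Str Pool.Agent.Helper79.VC

theorem thm_WSR (hCHR : UN.St_CHR) : St_WSR := by
  intro G M N B S' hM hB
  have hU : IsU (G := G) (fun (M : Type) (_ : Sys G M) => Nonempty M) :=
    ⟨fun M S h => h, fun M S h _ => h⟩
  have hN : Nonempty N := by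
    obtain ⟨x⟩ := hM
    obtain ⟨x', -, -⟩ := hB.forth (Ordinal.omega0_pos) (mem_univ x)
    exact ⟨x'⟩
  have h := (hCHR G _ hU M B hM).1 ⟨fun f x => ?_, fun n v D hD => ?_⟩
  · obtain ⟨S, -, hS⟩ := h
    exact ⟨S, hS⟩
  · have e1 : (1 : Ordinal.{0}) < Ordinal.omega0 := Ordinal.one_lt_omega0
    obtain ⟨x', -, hx⟩ := hB.forth e1 (mem_univ x)
    obtain ⟨y, -, hy⟩ := hx.back zero_lt_one (mem_univ (S'.fn f x'))
    refine ⟨y, ?_⟩
    have h3 := hy.atEq.2 2 (At.eq ([f], 0) ([], 1) : At G (Fin 2)) ![(x, x'), (y, S'.fn f x')] (by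
      intro i
      fin_cases i
      · exact Or.inr (Or.inl rfl)
      · exact Or.inl rfl)
    have e2 : (fun i => (![(x, x'), (y, S'.fn f x')] i).1) = ![x, y] := by
      funext i; fin_cases i <;> rfl
    have e3 : (fun i => (![(x, x'), (y, S'.fn f x')] i).2) = ![x', S'.fn f x'] := by
      funext i; fin_cases i <;> rfl
    rw [e2, e3] at h3
    exact h3.2 rfl
  · have e1 : (0 : Ordinal.{0}) + (n : Ordinal.{0}) ≤ Ordinal.omega0 := by
      rw [zero_add]; exact (Ordinal.natCast_lt_omega0 n).le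
    obtain ⟨v', -, hv⟩ := BFR.forth_many n (hB.mono e1) v fun _ => mem_univ _
    have hm : ∀ i, (v i, v' i) ∈ ((∅ : Set (M × N)) ∪ range fun i => (v i, v' i)) :=
      fun i => Or.inr ⟨i, rfl⟩
    refine ⟨N, S', hN, v', fun i j => hv.atEq.1 _ (hm i) _ (hm j), fun a ha => ?_⟩
    exact hv.atEq.2 a.1 (a.2.1 : At G (Fin a.1)) (fun i => (v (a.2.2 i), v' (a.2.2 i)))
      fun i => hm _

end UFS
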