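import Pool.Agent.UFS.BAF
import Pool.Agent.UFS.BRK
import Pool.Agent.UFS.BXT
import Pool.Agent.UFS.CLG
import Pool.Agent.UFS.CLK
import Pool.Agent.UFS.CNS
import Pool.Agent.UFS.DSG
import Pool.Agent.UFS.EXP
import Pool.Agent.UFS.FSU
import Pool.Agent.UFS.NLK
import Pool.Agent.UFS.PRM
import Pool.Agent.UFS.SCK
import Pool.Agent.UFS.TRF
import Pool.Agent.UFS.TXA
import Pool.Agent.UFS.UKK
import Pool.Agent.UFS.UKU
import Pool.Agent.UFS.WSR
import Pool.Agent.VFS.FUS
import Pool.Agent.UNE.ALL

/-!
# UFS: assembly

Vaught's conjecture for all isomorphism invariant `F_σ` sets of countable structures, in countable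
languages with function symbols of arity at most one and relation symbols of any arity.
-/

set_option autoImplicit false
set_option linter.unusedVariables false

namespace UFS

theorem all_BAF : St_BAF := thm_BAF VFS.thm_FUS thm_EXP

theorem all_UKK : St_UKK := thm_UKK thm_EXP thm_CNS (thm_PRM thm_EXP)

theorem all_TRF : St_TRF := thm_TRF thm_TXA

theorem all_BXT : St_BXT := thm_BXT thm_TXA

theorem all_CLG : St_CLG := thm_CLG all_BAF (thm_WSR UN.thm_CHR) all_TRF

theorem all_DSG : St_DSG :=
  thm_DSG UNE.all_ENI thm_UKU all_CLG (thm_BRK (UN.thm_KWM UN.thm_CHR)) (thm_CLK all_UKK all_CLG)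
    (thm_SCK thm_CNS all_UKK all_TRF all_BXT) (thm_NLK all_BXT)

/-- Vaught's conjecture for invariant `F_σ` sets of structures with unary functions -/
theorem all_FSU : St_FSU := thm_FSU all_DSG

end UFS
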