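import Pool.Agent.UFS.St

/-!
# UFS [BAF]: Baire category
-/

set_option autoImplicit false
set_option linter.unusedVariables false

namespace UFS

open Set UN Pool.Agent.Helper5.DU Pool.Agent.Helper6.Str Pool.Agent.Helper79.VC
open scoped Topology

variable {G : Sg}

/-- a bound for the numbers which occur in a fact -/
private def BAF_num : Fc G → ℕ
  | .inl r => Finset.univ.sup r.2
  | .inr r => max r.2.1 r.2.2

private theorem BAF_hd {S : Sys G ℕ} {g g' : Equiv.Perm ℕ} {r : Fc G}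
    (h : ∀ m ≤ BAF_num r, g' m = g m) : Hd (pm S g') r ↔ Hd (pm S g) r := by
  rcases r with ⟨R, a⟩ | ⟨f, x, y⟩
  · have h1 : ∀ i, g' (a i) = g (a i) := fun i => h _ (Finset.le_sup (f := a) (Finset.mem_univ i))
    show S.rel R (fun k => g' (a k)) ↔ S.rel R (fun k => g (a k))
    rw [show (fun k => g' (a k)) = fun k => g (a k) from funext h1]
  · have h1 : g' x = g x := h x (le_max_left _ _)
    have h2 : g' y = g y := h y (le_max_right _ _)
    show g'.symm (S.fn f (g' x)) = y ↔ g.symm (S.fn f (g x)) = y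
    rw [Equiv.symm_apply_eq, Equiv.symm_apply_eq, h1, h2]

private theorem BAF_claim (h1 : VFS.St_FUS) {K : Set (Sys G ℕ)} {A : ℕ → Set (Sys G ℕ)}
    (hF : Fs K A) {S : Sys G ℕ} (hS : S ∈ K) : ∃ (i k : ℕ) (s : Fin k → ℕ),
    Function.Injective s ∧ ∀ g : Equiv.Perm ℕ, (∀ j : Fin k, g j = s j) → pm S g ∈ A i := by
  by_contra hcon
  push Not at hcon
  obtain ⟨g, hg, -, hD⟩ := h1
    (fun i l => {t | ∀ g : Equiv.Perm ℕ, VFS.rs g l = t → pm S g ∉ A i}) (fun i k s hs => by
      obtain ⟨g, hgs, hg⟩ := hcon i k s hs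
      have h2 : ∃ Φ : Finset (Fc G), ∀ S' ∈ A i, ¬ ∀ r ∈ Φ, (Hd S' r ↔ Hd (pm S g) r) := by
        by_contra h3
        apply hg
        apply hF.cl i
        intro Φ
        by_contra h4
        apply h3
        refine ⟨Φ, fun S' hS' h5 => h4 ⟨S', hS', h5⟩⟩
      obtain ⟨Φ, hΦ⟩ := h2
      refine ⟨max k (Φ.sup BAF_num + 1), VFS.rs g _, ?_, ⟨le_max_left _ _, fun j => hgs j⟩, ?_⟩
      · intro a b hab
        exact Fin.ext (g.injective hab)
      · intro g' hg' hmem
        refine hΦ _ hmem fun r hr => BAF_hd fun m hm => ?_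
        have h6 : m < max k (Φ.sup BAF_num + 1) :=
          lt_of_lt_of_le (Nat.lt_succ_of_le (hm.trans (Finset.le_sup hr))) (le_max_right _ _)
        exact congrFun hg' ⟨m, h6⟩)
    0 Fin.elim0 (fun a => a.elim0)
  have h2 : pm S (Equiv.ofBijective g hg) ∈ K := hF.inv S hS _
  rw [hF.un, mem_iUnion] at h2
  obtain ⟨i, hi⟩ := h2
  obtain ⟨l, hl⟩ := hD i
  exact hl (Equiv.ofBijective g hg) rfl hi

private theorem BAF_word (S : Sys G ℕ) {k : ℕ} {s : Fin k → ℕ} {g : Equiv.Perm ℕ}
    (hg : ∀ j : Fin k, g j = s j) (l : List (Gk G k).Fn) (y : ℕ) :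
    (ex S s).w l (g y) = g ((ex (pm S g) fun j : Fin k => (j : ℕ)).w l y) := by
  induction l with
  | nil => rfl
  | cons f l ih =>
    rw [w_cons, w_cons, ih]
    rcases f with f | j
    · show S.fn f (g _) = g (g.symm (S.fn f (g _)))
      rw [Equiv.apply_symm_apply]
    · show s j = g (j : ℕ)
      exact (hg j).symm

theorem thm_BAF (h1 : VFS.St_FUS) (h2 : St_EXP) : St_BAF := by
  intro G K A hF S hS
  obtain ⟨i, k, s, hs, hs'⟩ := BAF_claim h1 hF hS
  obtain ⟨g, hg⟩ := h2 k s hs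
  refine ⟨i, k, s, ⟨0⟩, fun n v D _ => ⟨pm S g, ?_, fun x => g.symm (v x), fun a _ => ?_⟩⟩
  · intro h hh
    have h3 := hs' (h.trans g) (fun j => by
      show g (h j) = s j
      rw [hh j j.2]
      exact hg j)
    exact h3
  · have hv : ∀ x, v x = g (g.symm (v x)) := fun x => (g.apply_symm_apply _).symm
    have hw : ∀ (l : List (Gk G k).Fn) (x : Fin n), (ex S s).w l (v x) =
        g ((ex (pm S g) fun j : Fin k => (j : ℕ)).w l (g.symm (v x))) := by
      intro l x
      conv_lhs => rw [hv x]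
      exact BAF_word S hg l _
    cases a with
    | eq u t =>
      simp only [Tr, hw]
      exact g.injective.eq_iff
    | rel R t =>
      simp only [Tr, hw]
      exact Iff.rfl

end UFS
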