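import Pool.Agent.UN.StA

/-!
# UFS: invariant `F_σ` classes of structures with unary functions, definitions

`G` is a signature with unary function symbols and relation symbols, `Sys G ℕ` the systems on `ℕ`.
-/

set_option autoImplicit false
set_option linter.unusedVariables false

namespace UFS

open Set UN

variable {G : Sg} {M : Type}

/-- facts: `R(a)`, and `f(a) = b` -/
abbrev Fc (G : Sg) : Type := ((R : G.Rl) × (Fin (G.ar R) → ℕ)) ⊕ (G.Fn × ℕ × ℕ)

/-- the fact holds in `S` -/
def Hd (S : Sys G ℕ) : Fc G → Prop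
  | .inl r => S.rel r.1 r.2
  | .inr r => S.fn r.1 r.2.1 = r.2.2

/-- closed sets of systems: a system is in `A` if every finite set of its facts is shared with a member
of `A` -/
def ClS (A : Set (Sys G ℕ)) : Prop :=
  ∀ S, (∀ Φ : Finset (Fc G), ∃ S' ∈ A, ∀ r ∈ Φ, (Hd S' r ↔ Hd S r)) → S ∈ A

/-- the system induced along a permutation -/
def pm (S : Sys G ℕ) (g : Equiv.Perm ℕ) : Sys G ℕ where
  fn := fun f x => g.symm (S.fn f (g x))
  rel := fun R v => S.rel R fun k => g (v k)

/-- invariant sets -/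
def InS (K : Set (Sys G ℕ)) : Prop := ∀ S ∈ K, ∀ g : Equiv.Perm ℕ, pm S g ∈ K

/-- the relational structures of the members of `K` -/
def KW (K : Set (Sys G ℕ)) : Set ((LW G).Structure ℕ) := {B | ∃ S ∈ K, B = WS S}

/-- the systems which stay in `A` under the permutations which fix `0, ..., k - 1` -/
def Ak (A : Set (Sys G ℕ)) (k : ℕ) : Set (Sys G ℕ) :=
  {S | ∀ g : Equiv.Perm ℕ, (∀ j < k, g j = j) → pm S g ∈ A}

/-- the signature with `k` further constants (constant functions) -/
abbrev Gk (G : Sg) (k : ℕ) : Sg := ⟨G.Fn ⊕ Fin k, G.Rl, G.ar⟩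

/-- the expansion of `S` by constants -/
def ex {k : ℕ} (S : Sys G M) (c : Fin k → M) : Sys (Gk G k) M where
  fn := fun f x => Sum.elim (fun h => S.fn h x) c f
  rel := S.rel

/-- the class of the systems with `k` constants whose finite patterns occur in members of `Ak A k`
with the constants `0, ..., k - 1` -/
def UK (A : Set (Sys G ℕ)) (k : ℕ) (M : Type) (T : Sys (Gk G k) M) : Prop :=
  Nonempty M ∧ ∀ (n : ℕ) (v : Fin n → M) (D : Set (At (Gk G k) (Fin n))), D.Finite →
    ∃ S' ∈ Ak A k, ∃ v' : Fin n → ℕ,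
      ∀ a ∈ D, (Tr T v a ↔ Tr (ex S' fun j : Fin k => (j : ℕ)) v' a)

/-- `K` is an invariant countable union of the closed sets `A i` -/
structure Fs (K : Set (Sys G ℕ)) (A : ℕ → Set (Sys G ℕ)) : Prop where
  inv : InS K
  un : K = ⋃ i, A i
  cl : ∀ i, ClS (A i)

end UFS
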