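import Pool.Agent.UFS.Defs
import Pool.Agent.UNE.StC
import Pool.Agent.VFS.St

/-!
# UFS: statements

Every module proves `thm_XXX : St_XXX` in `Pool/Agent/UFS/XXX.lean`; statements used are taken as
hypotheses, e.g. `theorem thm_CLG (h1 : St_BAF) (h2 : St_WSR) (h3 : St_TRF) : St_CLG`.
-/

set_option autoImplicit false
set_option linter.unusedVariables false

namespace UFS

open Set UN Pool.Agent.Helper5.DU Pool.Agent.Helper6.Str Pool.Agent.Helper79.VC
open scoped Topology

/-- [UKU] (0.2 h; no other module) The classes `UK` are universal.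

Proof. `ne` clear. `loc`: the pattern of `v` occurs in a member `N`, `S'`, `v'` of the class, and the
pattern of `v'` occurs in a member of `Ak A k`. -/
def St_UKU : Prop := ∀ (G : Sg) (A : Set (Sys G ℕ)) (k : ℕ), IsU (UK A k)

/-- [TXA] (0.4 h; no other module) Translation of atoms with constants.

Proof. (1) Words: for every `l : List (G.Fn ⊕ Fin k)` and `i : ι` there are `l' : List G.Fn` and
`i' : ι ⊕ Fin k` with `(ex S c).w l (v i) = S.w l' (Sum.elim v c i')` for all `M S c v`: induction on `l`: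
`[]`: `([], inl i)`; `inl f :: l`: `(f :: l', i')`; `inr j :: l`: `([], inr j)`. Then atoms by cases
(choice for the finitely many arguments of a relation). (2) `At.eq s t` with the words
`s.1.map Sum.inl`, `t.1.map Sum.inl`, the same for `rel`. -/
def St_TXA : Prop := ∀ (G : Sg) (k : ℕ) (ι : Type),
  (∀ a : At (Gk G k) ι, ∃ b : At G (ι ⊕ Fin k), ∀ (M : Type) (S : Sys G M) (c : Fin k → M)
    (v : ι → M), Tr (ex S c) v a ↔ Tr S (Sum.elim v c) b) ∧
  ∀ b : At G ι, ∃ a : At (Gk G k) ι, ∀ (M : Type) (S : Sys G M) (c : Fin k → M)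
    (v : ι → M), Tr (ex S c) v a ↔ Tr S v b

/-- [EXP] (0.3 h; no other module; or use `VFS.St_FUS`) Finite injections extend to permutations.

Proof. By induction on `k` with transpositions: let `g` extend the restriction of `c` to the first `k`
entries; `swap (g k) (c k) * g` (`c k` and `g k` are different from `c j = g j`, `j < k`). -/
def St_EXP : Prop := ∀ (k : ℕ) (c : Fin k → ℕ), Function.Injective c →
  ∃ g : Equiv.Perm ℕ, ∀ j : Fin k, g j = c j

/-- [CNS] (0.4 h; no other module) The members of the classes `UK` are expansions.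

Proof. For `j : Fin k`, `x y : M`: the atom `.eq ([Sum.inr j], 0) ([Sum.inr j], 1) : At (Gk G k)
(Fin 2)` at `![x, y]` is true in all `ex S' _`, so `T.fn (Sum.inr j) x = T.fn (Sum.inr j) y`. Take
`x₀ : M`, `c j := T.fn (Sum.inr j) x₀`, `S := ⟨fun f => T.fn (Sum.inl f), T.rel⟩`. `c` is injective: for
`j ≠ j'` the atom `.eq ([Sum.inr j], 0) ([Sum.inr j'], 0) : At (Gk G k) (Fin 1)` is false in `ex S'
(fun j => j)`. -/
def St_CNS : Prop := ∀ (G : Sg) (A : Set (Sys G ℕ)) (k : ℕ) (M : Type) (T : Sys (Gk G k) M),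
  UK A k M T → ∃ (S : Sys G M) (c : Fin k → M), T = ex S c ∧ Function.Injective c

/-- [PRM] (1 h; uses `St_EXP`) Members of the classes `UK` on `ℕ`.

Proof. `ClS A`: let `Φ` be a finite set of facts. Take `N ≥ k`, `N ≥ 1`, larger than all numbers which
occur in `Φ`; `v : Fin N → ℕ`, `v m := g m`. Let `D` be the set of the following atoms in `Fin N`:
`.rel R fun i => ([], ⟨a i, _⟩)` for the facts `R(a)` in `Φ`; `.eq ([Sum.inl f], x) ([], y)` for the
facts `f(x) = y`; `.eq ([], m) ([], m')` for all `m m'`; `.eq ([Sum.inr j], ⟨j, _⟩) ([], ⟨j, _⟩)` for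
`j < k` (true in `ex S c`: `c j = g j`). So there are `S' ∈ Ak A k` and `v' : Fin N → ℕ` with the same
truth values: `v'` is injective, `v' j = j` for `j < k`. `St_EXP` gives a permutation `h` with
`h m = v' m` for `m < N`; it fixes `0, ..., k - 1`, so `pm S' h ∈ A`. For `R(a)` in `Φ`: `Hd (pm S' h)`:
`S'.rel R (h ∘ a) = S'.rel R (v' ∘ a) ↔ S.rel R (v ∘ a) = S.rel R (g ∘ a)`. For `f(x) = y`:
`h.symm (S'.fn f (h x)) = y ↔ S'.fn f (v' x) = v' y ↔ S.fn f (v x) = v y ↔ (pm S g).fn f x = y`. -/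
def St_PRM : Prop := ∀ (G : Sg) (A : Set (Sys G ℕ)) (k : ℕ) (S : Sys G ℕ) (c : Fin k → ℕ),
  ClS A → UK A k ℕ (ex S c) → ∀ g : Equiv.Perm ℕ, (∀ j : Fin k, g j = c j) → pm S g ∈ A

/-- [BAF] (1.2 h; uses `VFS.St_FUS`, `St_EXP`) Baire category.

Proof. Claim: there are `i`, `k`, an injective `s : Fin k → ℕ` such that `pm S g ∈ A i` for all
permutations `g` with `g j = s j` for `j < k`. Otherwise let `D i l := {t : Fin l → ℕ | ∀ g :
Equiv.Perm ℕ, VFS.rs g l = t → pm S g ∉ A i}`. It is dense in the sense of `VFS.St_FUS`: given `s`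
injective there is a permutation `g`, `VFS.rs g k = s`, `pm S g ∉ A i`; by `ClS (A i)` there is a
finite set `Φ` of facts such that no member of `A i` agrees with `pm S g` on `Φ`; let `l ≥ k` be larger
than all numbers occurring in `Φ`, `t := VFS.rs g l`; if `VFS.rs g' l = t` then `pm S g'` and `pm S g`
agree on `Φ` (`g'.symm (S.fn f (g' x)) = y ↔ S.fn f (g' x) = g' y`), so `pm S g' ∉ A i`. [FUS] gives a
bijection `g` with `VFS.rs g l ∈ D i l` for suitable `l`, for all `i`; so `pm S g ∉ A i` for all `i`,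
against `InS K`.
Let `g₀` be a permutation which extends `s` (`St_EXP`) and `S₀ := pm S g₀`. `S₀ ∈ Ak (A i) k`: if `h` fixes
`0, ..., k - 1`, then `pm S₀ h = pm S (h.trans g₀)` (`x ↦ g₀ (h x)`), and `g₀ ∘ h` extends `s`. `UK`: for
`v`, `D` take `S' := S₀`, `v' := g₀.symm ∘ v`: by induction on words
`(ex S s).w l (g₀ y) = g₀ ((ex S₀ id).w l y)` (`s j = g₀ j`), so all atoms agree. -/
def St_BAF : Prop := ∀ (G : Sg) (K : Set (Sys G ℕ)) (A : ℕ → Set (Sys G ℕ)), Fs K A →
  ∀ S ∈ K, ∃ (i k : ℕ) (c : Fin k → ℕ), UK (A i) k ℕ (ex S c)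

/-- [UKK] (0.4 h; uses `St_EXP`, `St_CNS`, `St_PRM`) The reducts of the members of the classes `UK` on `ℕ`
are in `K`.

Proof. `c` is injective: `St_CNS` gives `ex S c = ex S₁ c₁` with `c₁` injective, and `c₁ = c` (compare
the functions `Sum.inr j` at `0`). `St_EXP`: a permutation `g` which extends `c`; `pm S g ∈ A i ⊆ K`
(`St_PRM`); `S = pm (pm S g) g.symm ∈ K` (`Sys.ext`). -/
def St_UKK : Prop := ∀ (G : Sg) (K : Set (Sys G ℕ)) (A : ℕ → Set (Sys G ℕ)), Fs K A →
  ∀ (i k : ℕ) (S : Sys G ℕ) (c : Fin k → ℕ), UK (A i) k ℕ (ex S c) → S ∈ K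

/-- [WSR] (0.6 h; uses `UN.St_CHR`; compare `UN/KWM.lean`, second part of the proof) Structures which
are equivalent to a system at the level `ω` are systems.

Proof. `UN.St_CHR` for the class `U M S := Nonempty M` (`IsU` is clear) and `B`. For `f x`: by
`BFR.forth` (level 2, then 1) an answer `x'`, `y' := S'.fn f x'`, by `BFR.back` an answer `y`, and `AtEq`
for the symbol `.eq ([f], 0) ([], 1)`. For `n v D`: `BFR.forth_many` gives `v'` in `N` with `AtEq` for
the pairs `(v i, v' i)`; take `S'`, `v'`. -/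
def St_WSR : Prop := ∀ (G : Sg) (M N : Type) (B : (LW G).Structure M) (S' : Sys G N),
  Nonempty M → BFR B (WS S') univ univ Ordinal.omega0 ∅ → ∃ S : Sys G M, B = WS S

/-- [TRF] (0.5 h; uses `St_TXA`) The classes `UK` are closed under equivalence of the level `ω`.

Proof. Let `v : Fin n → M`, `D` finite. `BFR.forth_many` (level `0 + n ≤ ω`) gives `v'` with
`BFR (WS S) (WS S') univ univ 0` for the pairs `(c j, c' j)`, `(v i, v' i)`; so `Eqv S (Sum.elim v c)
S' (Sum.elim v' c')` (`BW.eqv`), and by `St_TXA` (1) `Tr (ex S c) v a ↔ Tr (ex S' c') v' a`. Then the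
pattern of `v'`, `D`. -/
def St_TRF : Prop := ∀ (G : Sg) (A : Set (Sys G ℕ)) (k : ℕ) (M N : Type) (S : Sys G M)
  (S' : Sys G N) (c : Fin k → M) (c' : Fin k → N), Nonempty M →
  BFR (WS S) (WS S') univ univ Ordinal.omega0 (prs c c') → UK A k N (ex S' c') →
  UK A k M (ex S c)

/-- [CLG] (0.8 h; uses `St_BAF`, `St_WSR`, `St_TRF`) Structures which are equivalent to a member of `K`
at the level `ω + ω`.

Proof. `M` is not empty (`BFR.back` for `0 : ℕ`). `St_WSR` (`BFR.mono`): `B = WS S`. `St_BAF` for `S'`: `i`,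
`k`, `c'`. `BFR.back_many` (`ω + k ≤ ω + ω`) gives `c` with `BFR (WS S) (WS S') univ univ ω (∅ ∪ range
fun j => (c j, c' j))`. `St_TRF`. -/
def St_CLG : Prop := ∀ (G : Sg) (K : Set (Sys G ℕ)) (A : ℕ → Set (Sys G ℕ)), Fs K A →
  ∀ (M : Type) (B : (LW G).Structure M), ∀ S' ∈ K,
  BFR B (WS S') univ univ (Ordinal.omega0 + Ordinal.omega0) ∅ →
  ∃ S : Sys G M, B = WS S ∧ ∃ (i k : ℕ) (c : Fin k → M), UK (A i) k M (ex S c)

/-- [BRK] (1 h; uses `UN.St_KWM`; compare `UN/KWM.lean`, lemma `KWM_meas` and `KWM_countable_At`) `K` is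
Borel.

Proof. `KW K = ⋃ i, KW (A i)`; so let `A` be closed. Let `U M S := Nonempty M` (`IsU`), so `KU U` is the
set of the structures `WS S`, measurable by `UN.St_KWM`. Facts in the language of the atoms: `R(a)` is
`RelMap (.rel R fun i => ([], i)) a` and `f(x) = y` is `RelMap (.eq ([f], 0) ([], 1)) ![x, y]`; in `WS S`
they say `Hd S r`. `{c | toStr c ∈ KW A} = {c | toStr c ∈ KU U} ∩ ⋂ Φ : Finset (Fc G), {c | ∃ S' ∈ A,
∀ r ∈ Φ, (fact r in toStr c ↔ Hd S' r)}` (`ClS A`; `WS` of the system is `toStr c`). `Fc G` is countable.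
For a fixed `Φ` the set is measurable: it is determined by finitely many measurable facts (copy
`KWM_meas`, with `W w := ∃ S' ∈ A, ∀ r, w r ↔ Hd S' r`). -/
def St_BRK : Prop := ∀ (G : Sg) (K : Set (Sys G ℕ)) (A : ℕ → Set (Sys G ℕ)), Countable G.Fn →
  Countable G.Rl → Fs K A → MeasurableSet {c : Code (LW G) | toStr c ∈ KW K}

/-- [CLK] (0.4 h; uses `St_UKK`, `St_CLG`) `K` is closed under the equivalence of the level `ω + ω`.

Proof. Let `B = WS S'`, `S' ∈ K`, `BFR B B' univ univ (ω + ω) ∅`. `BFR.symm`, `St_CLG` for `B'`, and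
`St_UKK`. -/
def St_CLK : Prop := ∀ (G : Sg) (K : Set (Sys G ℕ)) (A : ℕ → Set (Sys G ℕ)), Fs K A →
  ClosedLev (KW K) (Ordinal.omega0 + Ordinal.omega0)

/-- [BXT] (0.6 h; uses `St_TXA`) Levels of expansions.

Proof. (1) Induction on `γ`, for all `p`: `AtEq`: `atEq_iff` and `St_TXA` (1), with the pairs
`(c j, c' j)` added to the family. Moves: `insert (x, y) (p ∪ prs c c') = insert (x, y) p ∪ prs c c'`.
(2) Induction on `γ`: `AtEq` by `atEq_iff` and `St_TXA` (2). -/
def St_BXT : Prop := ∀ (G : Sg) (k : ℕ) (M N : Type) (S : Sys G M) (S' : Sys G N)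
  (c : Fin k → M) (c' : Fin k → N) (X : Set M) (X' : Set N) (γ : Ordinal.{0}) (p : Set (M × N)),
  (BFR (WS S) (WS S') X X' γ (p ∪ prs c c') →
    BFR (WS (ex S c)) (WS (ex S' c')) X X' γ p) ∧
  (BFR (WS (ex S c)) (WS (ex S' c')) X X' γ p → BFR (WS S) (WS S') X X' γ p)

/-- [SCK] (0.8 h; uses `St_CNS`, `St_UKK`, `St_TRF`, `St_BXT`) The classes `UK` are scattered.

Proof. Let `γ < om1`, `n`. Let `ρ` be given by `Scat (KW K)` for `γ' := max γ ω` and `n + k`. For every
`m` with `(ρ m).1 ∈ KW K` choose `S m ∈ K` with `(ρ m).1 = WS (S m)` (an arbitrary system otherwise) and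
let `ρ' m := (WS (ex (S m) (fun j => (ρ m).2 (Fin.natAdd n j))), fun i => (ρ m).2 (Fin.castAdd k i))`.
Let `B = WS T`, `UK (A i) k ℕ T`, `v : Fin n → ℕ`. `St_CNS`: `T = ex S c`; `S ∈ K` by `St_UKK`. For
`Fin.append v c` there is `m` with `(ρ m).1 ∈ KW K` and `BFR (WS S) (WS (S m)) univ univ γ' (pr
(Fin.append v c) (ρ m).2)`. With `c' := fun j => (ρ m).2 (Fin.natAdd n j)`: `St_TRF` (`BFR.symm`, `BFR.anti`,
`ω ≤ γ'`) gives `UK (A i) k ℕ (ex (S m) c')`, so `(ρ' m).1 ∈ KU (UK (A i) k)`; `St_BXT` (1) gives the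
equivalence of level `γ` for the pairs `(v i, _)` (`pr` is defined in `VB/B.lean`: the set of the pairs). -/
def St_SCK : Prop := ∀ (G : Sg) (K : Set (Sys G ℕ)) (A : ℕ → Set (Sys G ℕ)), Fs K A →
  Scat (KW K) → ∀ i k : ℕ, Scat (KU (UK (A i) k))

/-- [NLK] (0.3 h; uses `St_BXT`) Expansions of large structures are large.

Proof. A countable set which contradicts `NoCtblType (WS (ex S c))` contradicts `NoCtblType (WS S)`, by
`St_BXT` (2). -/
def St_NLK : Prop := ∀ (G : Sg) (k : ℕ) (M : Type) (S : Sys G M) (c : Fin k → M),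
  NoCtblType (WS S) → NoCtblType (WS (ex S c))

/-- [DSG] (0.5 h; uses `UNE.St_ENI`, `St_UKU`, `St_CLG`, `St_BRK`, `St_CLK`, `St_SCK`, `St_NLK`; compare
`UNE/DCI.lean`) The dichotomy for invariant `F_σ` sets of systems.

Proof. If `KW K` is not perfect, it is scattered (`scat_of_not_perf`, `St_BRK`). If it is not countable,
`exists_model` (`St_CLK`; `ω + ω < om1`: `om1` is closed under addition, or `Ordinal.isPrincipal_add`..)
gives `M`, `B` with `Lev (KW K) B`, `NoCtblType B`. `Lev` at the level `ω + ω` gives `S' ∈ K`; `St_CLG`: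
`B = WS S`, `UK (A i) k M (ex S c)`. `UNE.St_ENI` for `Gk G k`, `UK (A i) k` (`St_UKU`, `St_SCK`) and
`St_NLK` give a contradiction. -/
def St_DSG : Prop := ∀ (G : Sg) (K : Set (Sys G ℕ)) (A : ℕ → Set (Sys G ℕ)), Countable G.Fn →
  Countable G.Rl → Fs K A → CtblK (KW K) ∨ PerfK (KW K)

/-- the logic topology on the structures on `ℕ`: it is generated by the sets `{S : R(a)}`,
`{S : ¬ R(a)}` and `{S : F(a) = b}` -/
@[instance_reducible]
def lTop (L : FirstOrder.Language.{0, 0}) : TopologicalSpace (L.Structure ℕ) :=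
  TopologicalSpace.generateFrom {A : Set (L.Structure ℕ) |
    (∃ (n : ℕ) (R : L.Relations n) (a : Fin n → ℕ),
      A = {S : L.Structure ℕ | S.RelMap R a} ∨ A = {S : L.Structure ℕ | ¬ S.RelMap R a}) ∨
    ∃ (n : ℕ) (F : L.Functions n) (a : Fin n → ℕ) (b : ℕ),
      A = {S : L.Structure ℕ | S.funMap F a = b}}

/-- [FSU] (1.2 h; uses `St_DSG`; compare `UN/FNU.lean`, `UNE/FNI.lean`, `UN/UTU.lean`) The theorem for
invariant `F_σ` sets of structures.

Proof. `K' := {S | ∃ B ∈ K, S = sy B}`, `A' i := {S | ∃ B ∈ A i, S = sy B}` (`sy` in `UN/StA.lean`). `Fs K'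
A'`: `un` clear. `inv`: `pm (sy B) g = sy B'` for the structure `B'` induced by `B` along `g`
(`funMap F a := g.symm (B.funMap F (g ∘ a))`), which is isomorphic to `B`. `cl`: let every finite set of
facts of `S : Sys (sgL L) ℕ` be shared with a member of `A' i`. Constants: for `c`, `x`, `y` the facts
`(inl c, x, b)`, `(inl c, y, b)` with `b := S.fn (inl c) x` show `S.fn (inl c) y = b`; so `S = sy B` for the
structure with `funMap c _ := S.fn (inl c) 0`, `funMap g a := S.fn (inr g) (a 0)`, `RelMap R a :=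
S.rel ⟨n, R⟩ a` (`Functions (n + 2)` is empty; see `UTU.lean`). `B ∈ A i`: otherwise the complement of
`A i` is open, and by induction on `TopologicalSpace.GenerateOpen` there is a finite set of facts of
`B` such that all structures which share them are in the complement (as `finite_part` in
`Results/MP_5df2c5_lc/FSigmaClasses.lean`; facts `(F, a, b)` with `B.funMap F a = b`; for constants
use `x := 0`, for unary functions `x := a 0`); contradiction. `St_DSG` for `sgL L` (countable as in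
`FNI.lean`), and the translation of the two cases as in `FNI.lean` (`FNU_equiv`). -/
def St_FSU : Prop := ∀ (L : FirstOrder.Language.{0, 0}), Countable L.Symbols →
  (∀ n, IsEmpty (L.Functions (n + 2))) → ∀ (K : Set (L.Structure ℕ))
  (A : ℕ → Set (L.Structure ℕ)),
  (∀ S S' : L.Structure ℕ, Nonempty (@FirstOrder.Language.Equiv L ℕ ℕ S S') → S ∈ K → S' ∈ K) →
  (∀ i, IsClosed[lTop L] (A i)) → K = ⋃ i, A i →
      (∃ g : ℕ → L.Structure ℕ, ∀ S ∈ K,
            ∃ n : ℕ, Nonempty (@FirstOrder.Language.Equiv L ℕ ℕ S (g n))) ∨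
      (∃ f : (ℕ → Bool) → L.Structure ℕ,
          (∀ x : ℕ → Bool, f x ∈ K) ∧
          (∀ x y : ℕ → Bool,
              Nonempty (@FirstOrder.Language.Equiv L ℕ ℕ (f x) (f y)) → x = y) ∧
          (∀ (n : ℕ) (R : L.Relations n) (a : Fin n → ℕ),
              IsClopen {x : ℕ → Bool | @FirstOrder.Language.Structure.RelMap L ℕ (f x) n R a}) ∧
          (∀ (n : ℕ) (F : L.Functions n) (a : Fin n → ℕ) (b : ℕ),
              IsClopen {x : ℕ → Bool | @FirstOrder.Language.Structure.funMap L ℕ (f x) n F a = b}))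

end UFS
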